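import Pool.Agent.Q279.FL.Bal

/-!
# The primes above `p` which do not divide `x y z` are balanced

Let `K` be any number field of degree `m`, and let `p` be a prime which either is at least `2 m + 3`
and divides none of `B (p - 3), B (p - 5), ..., B (p - 2 m - 1)`, or is at least
`m (i + 1) (i + 2) + 3`, where `i` is its index of irregularity. Let `n` be divisible by `3 ^ e p` and
`x ^ n + y ^ n = z ^ n` with nonzero `x, y, z` in `K`. No case distinction is made: let `S` be the set of
primes `v` of `K` above `p` at which `x, y, z` have the same valuation. Then `S`, weighted by the local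
degrees, falls into families of 1, 2, 3 or 6 sets of the same total local degree, where families of one
set need `p = 2` modulo three and roots of unity of order `3 ^ (e + 1)` in the residue fields, families
of two sets need residue degrees divisible by three or `p = 1` modulo three and such roots of unity, and
families of three sets need a Wieferich prime `p` or even residue degrees. If `p` is not a Wieferich
prime and no residue field above `p` contains roots of unity of order `3 ^ (e + 1)`, then the total local
degree of `S` is divisible by six. So if moreover `m ≤ 5`, then `S` is empty: the valuations of `x, y, z` are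
at no prime above `p` all the same.

Proof. Let `X = x ^ M, Y = y ^ M, Z = - z ^ M` with `M = n / p`, without common factor at the primes above
`p`, so `X ^ p + Y ^ p + Z ^ p = 0`. The norm `P (ζ)` of `X + ζ Y` to the field of `p`-th roots of unity is,
outside `p`, a rational number times the `p`-th power of an ideal; its valuation at `1 - ζ` is the
total local degree `c` of the primes above `p` dividing `Z`. The relations of Stickelberger for
`P (ζ) / (1 - ζ) ^ c`, modulo the power `p - 1 - c` of `1 - ζ`, show that the part of the polynomial `P (T)`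
modulo `p` which is prime to `T (1 - T)` is palindromic. So the multiset of the residues `(X : Y : Z)` at
the primes in `S` is invariant under all permutations of the coordinates. The families are the orbits
of the symmetric group on the Frobenius orbits of residues. A cyclic permutation which fixes the
Frobenius orbit of a residue, with residue degree prime to three, fixes the residue, which is then
`(1 : ω : ω ^ 2)`, and here `ω` is a power of exponent `3 ^ e` in the residue field.
-/

set_option autoImplicit false

namespace Pool.Agent.Results.MP_ef6a16_nt.BalancedAnySolution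

open NumberField IsDedekindDomain

/-- The even numbers `k` with `2 ≤ k ≤ p - 3` for which `p` divides the numerator of the Bernoulli
number with index `k`. Their number is the index of irregularity of `p`. -/
def Irregular (p : ℕ) : Finset ℕ :=
  (Finset.range p).filter fun k => Even k ∧ 2 ≤ k ∧ k + 3 ≤ p ∧ (p : ℤ) ∣ (bernoulli k).num

/-- The residue degree of a prime of a number field. -/
noncomputable def residueDegree {K : Type} [Field K] [NumberField K]
    (v : HeightOneSpectrum (𝓞 K)) : ℕ := v.asIdeal.inertiaDeg ℤ

/-- The local degree (ramification index times residue degree) of a prime of a number field. -/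
noncomputable def localDegree {K : Type} [Field K] [NumberField K]
    (v : HeightOneSpectrum (𝓞 K)) : ℕ := v.asIdeal.ramificationIdx ℤ * residueDegree v

/-- The multiplicative group of the residue field of `v` has order divisible by `k`; equivalently, if
`k` is a power of a prime, the residue field contains a root of unity of order `k`. -/
def ResidueRoots {K : Type} [Field K] [NumberField K] (k : ℕ)
    (v : HeightOneSpectrum (𝓞 K)) : Prop := k ∣ Nat.card (𝓞 K ⧸ v.asIdeal) - 1

open Classical in
/-- The finite set `S` of primes is balanced (with respect to `p` and `e`): the primes have colours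
`c v` in a set `C`, the colours are divided into families (`family a` is the family of `a`), the primes
of `S` with colour `a` and those with colour `b` have the same total local degree if `a` and `b` are in
the same family, and for every prime `v` in `S` the family of its colour has
* one colour, with `p = 2` modulo three and roots of unity of order `3 ^ (e + 1)` at `v`, or
* two colours, with residue degree of `v` divisible by three, or with `p = 1` modulo three and roots
  of unity of order `3 ^ (e + 1)` at `v`, or
* three colours, with `p` a Wieferich prime or even residue degree of `v`, or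
* six colours. -/
def Balanced {K : Type} [Field K] [NumberField K] (p e : ℕ)
    (S : Finset (HeightOneSpectrum (𝓞 K))) : Prop :=
  ∃ (C : Type) (c : HeightOneSpectrum (𝓞 K) → C) (family : C → Finset C),
    (∀ a, a ∈ family a) ∧ (∀ a, ∀ b ∈ family a, family b = family a) ∧
    (∀ a, ∀ b ∈ family a,
      ∑ v ∈ S with c v = b, localDegree v = ∑ v ∈ S with c v = a, localDegree v) ∧
    ∀ v ∈ S, ((family (c v)).card = 1 ∧ p % 3 = 2 ∧ ResidueRoots (3 ^ (e + 1)) v) ∨
      ((family (c v)).card = 2 ∧
        (3 ∣ residueDegree v ∨ (p % 3 = 1 ∧ ResidueRoots (3 ^ (e + 1)) v))) ∨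
      ((family (c v)).card = 3 ∧ (p ^ 2 ∣ 2 ^ (p - 1) - 1 ∨ Even (residueDegree v))) ∨
      (family (c v)).card = 6

theorem result (K : Type) [Field K] [NumberField K] (m : ℕ) (hK : Module.finrank ℚ K = m)
    (p n e : ℕ) (hp : p.Prime)
    (hB : (2 * m + 3 ≤ p ∧ ∀ k ∈ Irregular p, k + 2 * m + 1 < p) ∨
      m * (((Irregular p).card + 1) * ((Irregular p).card + 2)) + 3 ≤ p)
    (hn : 3 ^ e * p ∣ n)
    (x y z : K) (h : x ^ n + y ^ n = z ^ n) (hx : x ≠ 0) (hy : y ≠ 0) (hz : z ≠ 0)
    (S : Finset (HeightOneSpectrum (𝓞 K)))
    (hS : ∀ v, v ∈ S ↔ ((p : ℕ) : 𝓞 K) ∈ v.asIdeal ∧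
      v.valuation K x = v.valuation K y ∧ v.valuation K y = v.valuation K z) :
    Balanced p e S ∧
    (p ^ 2 ∣ 2 ^ (p - 1) - 1 ∨ 2 ∣ ∑ v ∈ S, localDegree v) ∧
    ((∀ v ∈ S, ¬ ResidueRoots (3 ^ (e + 1)) v) → 3 ∣ ∑ v ∈ S, localDegree v) ∧
    (∀ v ∈ S, p % 3 = 1 ∨ ¬ ResidueRoots (3 ^ (e + 1)) v → 2 * localDegree v ≤ m) ∧
    (m ≤ 5 → ¬ p ^ 2 ∣ 2 ^ (p - 1) - 1 →
      (∀ v : HeightOneSpectrum (𝓞 K), ((p : ℕ) : 𝓞 K) ∈ v.asIdeal →
        ¬ ResidueRoots (3 ^ (e + 1)) v) → S = ∅) := by
  classical
  subst hK
  obtain ⟨k, rfl⟩ := hn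
  have hk : 0 < k := by
    rcases Nat.eq_zero_or_pos k with rfl | hk
    · rw [mul_zero, pow_zero, pow_zero, pow_zero] at h
      have h1 : (1 : K) = 0 := by linear_combination h
      exact absurd h1 one_ne_zero
    · exact hk
  have e0 : 3 ^ e * p * k = 3 ^ e * k * p := by ring
  rw [e0] at h
  obtain ⟨⟨C, c, fam, h1, h2, h3, h4⟩, h5⟩ := Q279.FL.mainBal hp hB e k hk hx hy hz h S hS
  have h3' : ∀ a, ∀ b ∈ fam a,
      ∑ v ∈ S with c v = b, localDegree v = ∑ v ∈ S with c v = a, localDegree v := by
    intro a b hb
    exact h3 a b hb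
  have h5' : ∑ v ∈ S, localDegree v ≤ Module.finrank ℚ K := h5
  have h4' : ∀ v ∈ S, ((fam (c v)).card = 1 ∧ p % 3 = 2 ∧ ResidueRoots (3 ^ (e + 1)) v) ∨
      ((fam (c v)).card = 2 ∧
        (3 ∣ residueDegree v ∨ (p % 3 = 1 ∧ ResidueRoots (3 ^ (e + 1)) v))) ∨
      ((fam (c v)).card = 3 ∧ (p ^ 2 ∣ 2 ^ (p - 1) - 1 ∨ Even (residueDegree v))) ∨
      (fam (c v)).card = 6 := h4
  have hpos : ∀ v ∈ S, 0 < localDegree v := by
    intro v hv
    have hlies : v.asIdeal.LiesOver (Ideal.span {(p : ℤ)}) := by
      rw [Ideal.liesOver_span_iff v.isPrime.ne_top (Nat.prime_iff_prime_int.1 hp)]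
      simpa using ((hS v).1 hv).1
    exact Nat.mul_pos (Ideal.ramificationIdx_pos _ _) (Ideal.inertiaDeg_pos _ _)
  -- roots of unity of order `3 ^ (e + 1)` and `p = 2` modulo three: even residue degree
  have hev : ∀ v ∈ S, p % 3 = 2 → ResidueRoots (3 ^ (e + 1)) v → Even (residueDegree v) := by
    intro v hv hp2 hr
    have hpv := ((hS v).1 hv).1
    have hcard : Nat.card (𝓞 K ⧸ v.asIdeal) = p ^ residueDegree v := by
      unfold residueDegree
      rw [← Q264.FB.absNorm_eq hp v hpv, Ideal.absNorm_apply, Submodule.cardQuot_apply]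
    unfold ResidueRoots at hr
    rw [hcard] at hr
    have hfact : Fact p.Prime := ⟨hp⟩
    apply Q264.FB.even_of_card hp2
    have h6 : 3 ∣ p ^ residueDegree v - 1 := (Dvd.intro_left (3 ^ e) (by rw [pow_succ])).trans hr
    have h7 : 1 ≤ p ^ residueDegree v := Nat.one_le_pow _ _ hp.pos
    omega
  have hcl : ∀ (d : ℕ) (P : HeightOneSpectrum (𝓞 K) → Prop),
      (∀ v ∈ S, P v → d ∣ localDegree v) →
      ∀ v ∈ S, (∀ u ∈ S, c u = c v → P u) → d ∣ ∑ u ∈ S with c u = c v, localDegree u := by
    intro d P hP v hv hu
    apply Finset.dvd_sum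
    intro u hu'
    rw [Finset.mem_filter] at hu'
    exact hP u hu'.1 (hu u hu'.1 hu'.2)
  have hresid : ∀ u : HeightOneSpectrum (𝓞 K), residueDegree u ∣ localDegree u := fun u =>
    Dvd.intro_left _ rfl
  -- divisibility by two
  have hdiv2 : p ^ 2 ∣ 2 ^ (p - 1) - 1 ∨ ∀ v ∈ S,
      2 ∣ (fam (c v)).card * ∑ v' ∈ S with c v' = c v, localDegree v' := by
    by_cases hW : p ^ 2 ∣ 2 ^ (p - 1) - 1
    · exact Or.inl hW
    right
    intro v hv
    rcases h4' v hv with h6 | h6 | h6 | h6
    · apply Dvd.dvd.mul_left
      refine hcl 2 (fun u => Even (residueDegree u)) (fun u _ hu =>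
        (even_iff_two_dvd.1 hu).trans (hresid u)) v hv fun u hu huv => ?_
      rcases h4' u hu with h7 | h7 | h7 | h7 <;> rw [huv] at h7
      · exact hev u hu h7.2.1 h7.2.2
      · omega
      · omega
      · omega
    · exact Dvd.dvd.mul_right (by rw [h6.1]) _
    · apply Dvd.dvd.mul_left
      refine hcl 2 (fun u => Even (residueDegree u)) (fun u _ hu =>
        (even_iff_two_dvd.1 hu).trans (hresid u)) v hv fun u hu huv => ?_
      rcases h4' u hu with h7 | h7 | h7 | h7 <;> rw [huv] at h7
      · omega
      · omega
      · exact h7.2.resolve_left hW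
      · omega
    · exact Dvd.dvd.mul_right (by rw [h6]; norm_num) _
  -- divisibility by three
  have hdiv3 : (∀ v ∈ S, ¬ ResidueRoots (3 ^ (e + 1)) v) → ∀ v ∈ S,
      3 ∣ (fam (c v)).card * ∑ v' ∈ S with c v' = c v, localDegree v' := by
    intro hr v hv
    rcases h4' v hv with h6 | h6 | h6 | h6
    · exact absurd h6.2.2 (hr v hv)
    · apply Dvd.dvd.mul_left
      refine hcl 3 (fun u => 3 ∣ residueDegree u) (fun u _ hu => hu.trans (hresid u)) v hv
        fun u hu huv => ?_
      rcases h4' u hu with h7 | h7 | h7 | h7
      · exact absurd h7.2.2 (hr u hu)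
      · rcases h7.2 with h8 | h8
        · exact h8
        · exact absurd h8.2 (hr u hu)
      · rw [huv] at h7
        omega
      · rw [huv] at h7
        omega
    · exact Dvd.dvd.mul_right (by rw [h6.1]) _
    · exact Dvd.dvd.mul_right (by rw [h6]; norm_num) _
  have hsum2 : p ^ 2 ∣ 2 ^ (p - 1) - 1 ∨ 2 ∣ ∑ v ∈ S, localDegree v :=
    hdiv2.imp id fun h6 => Q264.FB.fam_dvd S (fun v => localDegree v) c fam h1 h2 h3' hpos 2 h6
  have hsum3 : (∀ v ∈ S, ¬ ResidueRoots (3 ^ (e + 1)) v) → 3 ∣ ∑ v ∈ S, localDegree v :=
    fun hr => Q264.FB.fam_dvd S (fun v => localDegree v) c fam h1 h2 h3' hpos 3 (hdiv3 hr)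
  refine ⟨⟨C, c, fam, h1, h2, h3', h4'⟩, hsum2, hsum3, ?_, ?_⟩
  · intro v hv hr
    have h6 : 1 < (fam (c v)).card := by
      rcases h4' v hv with h7 | h7 | h7 | h7
      · rcases hr with hr | hr
        · omega
        · exact absurd h7.2.2 hr
      · omega
      · omega
      · omega
    obtain ⟨b, hb, hbc⟩ := Finset.exists_mem_ne h6 (c v)
    have e1 := h3' _ _ hb
    have e2 : localDegree v ≤ ∑ u ∈ S with c u = c v, localDegree u :=
      Finset.single_le_sum (f := fun u => localDegree u) (fun _ _ => Nat.zero_le _)
        (Finset.mem_filter.2 ⟨hv, rfl⟩)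
    have e3 : Disjoint (S.filter fun u => c u = c v) (S.filter fun u => c u = b) := by
      rw [Finset.disjoint_filter]
      intro u _ hu hu'
      exact hbc (hu'.symm.trans hu)
    have e4 : ∑ u ∈ S with c u = c v, localDegree u + ∑ u ∈ S with c u = b, localDegree u ≤
        Module.finrank ℚ K := by
      rw [← Finset.sum_union e3]
      exact (Finset.sum_le_sum_of_subset (Finset.union_subset (Finset.filter_subset _ _)
        (Finset.filter_subset _ _))).trans h5'
    omega
  · intro hm hW hr
    rw [Finset.eq_empty_iff_forall_notMem]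
    intro v hv
    have h6 := hsum2.resolve_left hW
    have h7 := hsum3 fun v hv => hr v ((hS v).1 hv).1
    have h8 : 0 < ∑ v ∈ S, localDegree v :=
      lt_of_lt_of_le (hpos v hv)
        (Finset.single_le_sum (f := fun u => localDegree u) (fun _ _ => Nat.zero_le _) hv)
    omega

end Pool.Agent.Results.MP_ef6a16_nt.BalancedAnySolution
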