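import Pool.Agent.Q264.FB.Main

/-!
# The first case of Fermat's Last Theorem over a number field and the splitting of the exponent

Let `K` be any number field of degree `m`, and let `p` be a prime which either is at least `2 m + 3`
and divides none of `B (p - 3), B (p - 5), ..., B (p - 2 m - 1)`, or is at least
`m (i + 1) (i + 2) + 3`, where `i` is its index of irregularity. If the first case of Fermat's Last
Theorem fails over `K` for an exponent divisible by `p`, then the primes of `K` above `p`, weighted
by their local degrees, fall into families of 1, 2, 3 or 6 sets of the same total local degree, where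
families of one set occur only if `p = 2` modulo three and all residue degrees in it are even,
families of two sets only if `p = 1` modulo three or all residue degrees in it are divisible by
three, and families of three sets only if all residue degrees in it are even or `p` is a Wieferich
prime. In particular the first case holds if `p = 1` modulo three and some prime above `p` has local
degree greater than `m / 2`, or if some prime above `p` has local degree greater than `m / 2` and odd
residue degree.

Proof. Let `X ^ p + Y ^ p + Z ^ p = 0` in the integers of `K`, in the first case. The norm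
polynomials `N (X + T Y)` and `N (Y + T Z)` are palindromic modulo `p`. So the multiset of the residues
of the conjugates of `(X : Y : Z)`, which are points of the line `x + y + z = 0` over an algebraic
closure of the prime field with nonzero coordinates, is invariant under all permutations of the three
coordinates. The residues at a prime `v` above `p` form one Frobenius orbit, counted with multiplicity
(local degree of `v`) / (size of the orbit). The symmetric group permutes the Frobenius orbits and
preserves the weights, and the families are the orbits of this action. A permutation which fixes the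
Frobenius orbit of a point acts on it as a power of the Frobenius map; if its order is prime to the
residue degree, then it fixes the point, which is then `(1 : 1 : -2)` up to a permutation (and `p` is a
Wieferich prime), or `(1 : ω : ω ^ 2)` with `ω` a primitive cube root of unity.
-/

set_option autoImplicit false

namespace Pool.Agent.Results.MP_ef6a16_nt.BalancedSplitting

open NumberField IsDedekindDomain

/-- The even numbers `k` with `2 ≤ k ≤ p - 3` for which `p` divides the numerator of the Bernoulli
number with index `k`. Their number is the index of irregularity of `p`. -/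
def Irregular (p : ℕ) : Finset ℕ :=
  (Finset.range p).filter fun k => Even k ∧ 2 ≤ k ∧ k + 3 ≤ p ∧ (p : ℤ) ∣ (bernoulli k).num

/-- The residue degree of a prime of a number field. -/
noncomputable def residueDegree {K : Type} [Field K] [NumberField K]
    (v : HeightOneSpectrum (𝓞 K)) : ℕ := v.asIdeal.inertiaDeg ℤ

/-- The local degree (ramification index times residue degree) of a prime of a number field. -/
noncomputable def localDegree {K : Type} [Field K] [NumberField K]
    (v : HeightOneSpectrum (𝓞 K)) : ℕ := v.asIdeal.ramificationIdx ℤ * residueDegree v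

open Classical in
/-- The finite set `S` of primes is balanced (with respect to `p`): the primes have colours `c v` in a
set `C`, the colours are divided into families (`family a` is the family of `a`), the primes of
`S` with colour `a` and those with colour `b` have the same total local degree if `a` and `b` are in
the same family, and for every prime `v` in `S` the family of its colour has
* one colour, with `p = 2` modulo three and even residue degree of `v`, or
* two colours, with `p = 1` modulo three or residue degree of `v` divisible by three, or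
* three colours, with `p` a Wieferich prime or even residue degree of `v`, or
* six colours. -/
def Balanced {K : Type} [Field K] [NumberField K] (p : ℕ)
    (S : Finset (HeightOneSpectrum (𝓞 K))) : Prop :=
  ∃ (C : Type) (c : HeightOneSpectrum (𝓞 K) → C) (family : C → Finset C),
    (∀ a, a ∈ family a) ∧ (∀ a, ∀ b ∈ family a, family b = family a) ∧
    (∀ a, ∀ b ∈ family a,
      ∑ v ∈ S with c v = b, localDegree v = ∑ v ∈ S with c v = a, localDegree v) ∧
    ∀ v ∈ S, ((family (c v)).card = 1 ∧ p % 3 = 2 ∧ Even (residueDegree v)) ∨
      ((family (c v)).card = 2 ∧ (p % 3 = 1 ∨ 3 ∣ residueDegree v)) ∨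
      ((family (c v)).card = 3 ∧ (p ^ 2 ∣ 2 ^ (p - 1) - 1 ∨ Even (residueDegree v))) ∨
      (family (c v)).card = 6

theorem result (K : Type) [Field K] [NumberField K] (m : ℕ) (hK : Module.finrank ℚ K = m)
    (p n : ℕ) (hp : p.Prime)
    (hB : (2 * m + 3 ≤ p ∧ ∀ k ∈ Irregular p, k + 2 * m + 1 < p) ∨
      m * (((Irregular p).card + 1) * ((Irregular p).card + 2)) + 3 ≤ p)
    (hn : p ∣ n) (S : Finset (HeightOneSpectrum (𝓞 K)))
    (hS : ∀ v, v ∈ S ↔ ((p : ℕ) : 𝓞 K) ∈ v.asIdeal)
    (x y z : K) (h : x ^ n + y ^ n = z ^ n) (hx : x ≠ 0) (hy : y ≠ 0) (hz : z ≠ 0)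
    (h1 : ∀ v ∈ S, v.valuation K x = v.valuation K y ∧ v.valuation K y = v.valuation K z) :
    Balanced p S ∧
    (∀ v ∈ S, p % 3 = 1 ∨ Odd (residueDegree v) → 2 * localDegree v ≤ m ∧
      ∃ A ⊆ S, ∃ B ⊆ S, Disjoint A B ∧ v ∈ A ∧
        ∑ u ∈ A, localDegree u = ∑ u ∈ B, localDegree u) ∧
    (Odd m → p ^ 2 ∣ 2 ^ (p - 1) - 1 ∧ ∃ A ⊆ S, ∃ B ⊆ S, ∃ D ⊆ S,
      Disjoint A B ∧ Disjoint A D ∧ Disjoint B D ∧
        ∑ u ∈ A, localDegree u = ∑ u ∈ B, localDegree u ∧
        ∑ u ∈ B, localDegree u = ∑ u ∈ D, localDegree u ∧ Odd (∑ u ∈ A, localDegree u)) ∧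
    (p % 3 = 2 → (∀ v ∈ S, Nat.Coprime (residueDegree v) 6) →
      3 ∣ m ∧ (6 ∣ m ∨ p ^ 2 ∣ 2 ^ (p - 1) - 1)) := by
  classical
  subst hK
  obtain ⟨k, rfl⟩ := hn
  have hp3 : 3 ≤ p := by
    rcases hB with h | h
    · omega
    · omega
  have hodd : Odd p := hp.odd_of_ne_two (by omega)
  have hF : (x ^ k) ^ p + (y ^ k) ^ p + (-z ^ k) ^ p = 0 := by
    rw [hodd.neg_pow, ← pow_mul, ← pow_mul, ← pow_mul, mul_comm k p, h]
    ring
  have hfact : Fact p.Prime := ⟨hp⟩
  obtain ⟨hbal, hsum⟩ := Q264.FB.main hp hB (pow_ne_zero k hx) (pow_ne_zero k hy)
    (neg_ne_zero.2 (pow_ne_zero k hz)) hF S hS fun v hv => by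
      obtain ⟨h2, h3⟩ := h1 v hv
      rw [Valuation.map_neg, map_pow, map_pow, map_pow, h2, h3]
      exact ⟨rfl, rfl⟩
  have hpos : ∀ v ∈ S, 0 < v.asIdeal.ramificationIdx ℤ * v.asIdeal.inertiaDeg ℤ := by
    intro v hv
    exact Nat.mul_pos (Ideal.ramificationIdx_pos _ _) (Ideal.inertiaDeg_pos _ _)
  refine ⟨hbal, ?_, ?_, ?_⟩
  · intro v hv hf
    obtain ⟨A, hA, B, hB', hAB, hvA, he⟩ := Q264.FB.bal_two hbal v hv hf
    refine ⟨?_, A, hA, B, hB', hAB, hvA, he⟩
    have e1 : ∑ u ∈ A, localDegree u + ∑ u ∈ B, localDegree u ≤ Module.finrank ℚ K := by
      rw [← Finset.sum_union hAB, ← hsum]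
      exact Finset.sum_le_sum_of_subset (Finset.union_subset hA hB')
    have e2 : localDegree v ≤ ∑ u ∈ A, localDegree u :=
      Finset.single_le_sum (f := fun u => localDegree u) (fun _ _ => Nat.zero_le _) hvA
    have e3 : ∑ u ∈ A, localDegree u = ∑ u ∈ B, localDegree u := he
    omega
  · intro hm
    rw [← hsum] at hm
    exact Q264.FB.bal_odd hbal hpos (fun v _ => Dvd.intro_left _ rfl) hm
  · intro h2 h6
    have := Q264.FB.bal_six hbal hpos h2 h6
    rwa [hsum] at this

end Pool.Agent.Results.MP_ef6a16_nt.BalancedSplitting
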