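import Pool.Agent.Q279.FL.Even

/-!
# Even exponents over arbitrary number fields, at every prime above `p`

Let `K` be any number field of degree `m`, and let `p` be a prime which either is at least `2 m + 3`
and divides none of `B (p - 3), B (p - 5), ..., B (p - 2 m - 1)`, or is at least
`m (i + 1) (i + 2) + 3`, where `i` is its index of irregularity. Let `n` be divisible by `2 ^ j p` and
`x ^ n + y ^ n = z ^ n` with nonzero `x, y, z` in `K`. Consider the primes `v` of `K` above `p` at which
`x, y, z` have the same valuation. Those whose residue field contains no primitive root of unity of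
order `2 ^ (j + 1)` have together at most half the total local degree of those whose residue field
contains one. Hence, if no residue field above `p` contains a root of unity of order `2 ^ (j + 1)` (for
example `j = 1`, `p = 3` modulo four and all residue degrees odd), then at no prime of `K` above `p`
the valuations of `x, y, z` are all equal. There is no condition of Wieferich and none on the class number, the units, the real
places and the primes above two of `K`. For `K = ℚ(ζ)`, `ζ` of order `3 * 2 ^ (j + 1)`, the equation with
the exponent `2 ^ j p` has a solution in roots of unity.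

Proof. Let `X = x ^ M, Y = y ^ M, Z = - z ^ M` with `M = n / p`, without common factor at the primes above
`p`, so `X ^ p + Y ^ p + Z ^ p = 0`. The norm `P (ζ)` of `X + ζ Y` to the field of `p`-th roots of unity is,
outside `p`, a rational number times the `p`-th power of an ideal; its valuation at `1 - ζ` is the
total local degree `c` of the primes above `p` dividing `Z`. The relations of Stickelberger for
`P (ζ) / (1 - ζ) ^ c`, modulo the power `p - 1 - c` of `1 - ζ`, show that the part of the polynomial `P (T)`
modulo `p` which is prime to `T (1 - T)` is palindromic. This is the product of `X + T Y` over the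
residues at the primes above `p` which do not divide `X Y Z`. So the multiset of these residues
`(X : Y : Z)` is invariant under all permutations of the coordinates. But `Y / X` is a power of
exponent `2 ^ j` in the residue field and `Z / Y`, `X / Z` are such powers times `-1`, and `-1` is not such a
power if there is no root of unity of order `2 ^ (j + 1)`. So the two cyclic permutations carry the
residues of the first kind to two disjoint multisets of residues of the second kind.
-/

set_option autoImplicit false

namespace Pool.Agent.Results.MP_ef6a16_nt.EvenEveryPrime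

open NumberField IsDedekindDomain

/-- The even numbers `k` with `2 ≤ k ≤ p - 3` for which `p` divides the numerator of the Bernoulli
number with index `k`. Their number is the index of irregularity of `p`. -/
def Irregular (p : ℕ) : Finset ℕ :=
  (Finset.range p).filter fun k => Even k ∧ 2 ≤ k ∧ k + 3 ≤ p ∧ (p : ℤ) ∣ (bernoulli k).num

/-- The local degree (ramification index times residue degree) of a prime of a number field. -/
noncomputable def localDegree {K : Type} [Field K] [NumberField K]
    (v : HeightOneSpectrum (𝓞 K)) : ℕ := v.asIdeal.ramificationIdx ℤ * v.asIdeal.inertiaDeg ℤ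

/-- The multiplicative group of the residue field of `v` has order divisible by `k`; equivalently the
residue field contains a root of unity of order `k`. -/
def ResidueRoots {K : Type} [Field K] [NumberField K] (k : ℕ)
    (v : HeightOneSpectrum (𝓞 K)) : Prop := k ∣ Nat.card (𝓞 K ⧸ v.asIdeal) - 1

open Classical in
theorem result (K : Type) [Field K] [NumberField K] (m : ℕ) (hK : Module.finrank ℚ K = m)
    (p n j : ℕ) (hp : p.Prime)
    (hB : (2 * m + 3 ≤ p ∧ ∀ k ∈ Irregular p, k + 2 * m + 1 < p) ∨
      m * (((Irregular p).card + 1) * ((Irregular p).card + 2)) + 3 ≤ p)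
    (hn : 2 ^ j * p ∣ n)
    (x y z : K) (h : x ^ n + y ^ n = z ^ n) (hx : x ≠ 0) (hy : y ≠ 0) (hz : z ≠ 0)
    (S : Finset (HeightOneSpectrum (𝓞 K)))
    (hS : ∀ v, v ∈ S ↔ ((p : ℕ) : 𝓞 K) ∈ v.asIdeal ∧
      v.valuation K x = v.valuation K y ∧ v.valuation K y = v.valuation K z) :
    2 * ∑ v ∈ S with ¬ ResidueRoots (2 ^ (j + 1)) v, localDegree v ≤
      ∑ v ∈ S with ResidueRoots (2 ^ (j + 1)) v, localDegree v ∧
    (∀ v ∈ S, ¬ ResidueRoots (2 ^ (j + 1)) v → 3 * localDegree v ≤ m) ∧
    ((∀ v : HeightOneSpectrum (𝓞 K), ((p : ℕ) : 𝓞 K) ∈ v.asIdeal →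
      ¬ ResidueRoots (2 ^ (j + 1)) v) → S = ∅) := by
  subst hK
  obtain ⟨k, rfl⟩ := hn
  have hk : 0 < k := by
    rcases Nat.eq_zero_or_pos k with rfl | hk
    · rw [mul_zero, pow_zero, pow_zero, pow_zero] at h
      have h1 : (1 : K) = 0 := by linear_combination h
      exact absurd h1 one_ne_zero
    · exact hk
  have e : 2 ^ j * p * k = 2 ^ j * k * p := by ring
  rw [e] at h
  obtain ⟨h1, h2⟩ := Q279.FL.mainEven hp hB j k hk hx hy hz h S hS
  have hsplit : ∑ v ∈ S with ¬ ResidueRoots (2 ^ (j + 1)) v, localDegree v +
      ∑ v ∈ S with ResidueRoots (2 ^ (j + 1)) v, localDegree v = ∑ v ∈ S, localDegree v := by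
    rw [add_comm]
    exact Finset.sum_filter_add_sum_filter_not S _ _
  have h1' : 2 * ∑ v ∈ S with ¬ ResidueRoots (2 ^ (j + 1)) v, localDegree v ≤
      ∑ v ∈ S with ResidueRoots (2 ^ (j + 1)) v, localDegree v := by
    unfold ResidueRoots localDegree
    convert h1
  have h2' : ∑ v ∈ S, localDegree v ≤ Module.finrank ℚ K := h2
  have hle : ∀ v ∈ S, ¬ ResidueRoots (2 ^ (j + 1)) v →
      localDegree v ≤ ∑ v ∈ S with ¬ ResidueRoots (2 ^ (j + 1)) v, localDegree v := by
    intro v hv hv2
    exact Finset.single_le_sum (f := fun v => localDegree v) (fun _ _ => Nat.zero_le _)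
      (Finset.mem_filter.2 ⟨hv, hv2⟩)
  refine ⟨h1', ?_, ?_⟩
  · intro v hv hv2
    have := hle v hv hv2
    omega
  · intro hall
    rw [Finset.eq_empty_iff_forall_notMem]
    intro v hv
    have hv2 := hall v ((hS v).1 hv).1
    have h3 := hle v hv hv2
    have h4 : ∑ v ∈ S with ResidueRoots (2 ^ (j + 1)) v, localDegree v = 0 := by
      rw [Finset.sum_eq_zero]
      intro u hu
      rw [Finset.mem_filter] at hu
      exact absurd hu.2 (hall u ((hS u).1 hu.1).1)
    have hlies : v.asIdeal.LiesOver (Ideal.span {(p : ℤ)}) := by
      rw [Ideal.liesOver_span_iff v.isPrime.ne_top (Nat.prime_iff_prime_int.1 hp)]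
      simpa using ((hS v).1 hv).1
    have hpos : 0 < localDegree v :=
      Nat.mul_pos (Ideal.ramificationIdx_pos _ _) (Ideal.inertiaDeg_pos _ _)
    omega

end Pool.Agent.Results.MP_ef6a16_nt.EvenEveryPrime
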