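import Mathlib
import Pool.Agent.Q103.FER.Final

/-!
# Fermat's equation over number fields at points with small digits

For all number fields `K` of degree at most `d` at once and all primes `p ≥ 3` at once, with no
condition on `p`: if `a, b, c` have at most `k + 1` digits of house at most `T ^ δ` in a base `t` of
`K` whose conjugates lie between `T` and `exp (T ^ (δ / 2))`, the last digits being `0` or roots of
unity, not all zero, then `a ^ p + b ^ p + c ^ p = 0` has only the trivial solutions, in which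
`a / c` and `b / c` are roots of unity and `K` contains the cube roots of unity.
-/

set_option autoImplicit false

namespace Pool.Agent.Results.MP_ef6a16_nt.SmallDigitPoints

open Polynomial NumberField Pool.Agent.Q103.FER

/-- at most `k + 1` digits, all conjugates of the digits at most `B`, and the last digit zero or a
root of unity (all its conjugates are at most `1`) -/
structure Digits {K : Type} [Field K] (B : ℝ) (k : ℕ) (f : (𝓞 K)[X]) : Prop where
  deg : f.natDegree ≤ k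
  coeff : ∀ (j : ℕ) (σ : K →+* ℂ), ‖σ (f.coeff j)‖ ≤ B
  last : ∀ σ : K →+* ℂ, ‖σ (f.coeff 0)‖ ≤ 1

theorem result (d k : ℕ) : ∃ δ₀ : ℝ, 0 < δ₀ ∧ ∀ δ : ℝ, 0 < δ → δ ≤ δ₀ → ∃ T₀ : ℝ,
    ∀ T : ℝ, T₀ ≤ T → ∀ (K : Type) [Field K] [NumberField K], Module.finrank ℚ K ≤ d →
    ∀ t : 𝓞 K, (∀ σ : K →+* ℂ, T ≤ ‖σ t‖ ∧ ‖σ t‖ ≤ Real.exp (T ^ (δ / 2))) →
    ∀ f g h : (𝓞 K)[X], Digits (T ^ δ) k f → Digits (T ^ δ) k g → Digits (T ^ δ) k h →
    (f.coeff 0 ≠ 0 ∨ g.coeff 0 ≠ 0 ∨ h.coeff 0 ≠ 0) →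
    ∀ a b c : 𝓞 K, a = f.eval t → b = g.eval t → c = h.eval t → a ≠ 0 → b ≠ 0 → c ≠ 0 →
    ∀ p : ℕ, p.Prime → 3 ≤ p → a ^ p + b ^ p + c ^ p = 0 →
    ∃ u v : K, (a : K) = u * c ∧ (b : K) = v * c ∧ (∃ m : ℕ, 0 < m ∧ u ^ m = 1 ∧ v ^ m = 1) ∧
      IsPrimitiveRoot (u ^ p) 3 ∧ v ^ p = (u ^ p) ^ 2 := by
  obtain ⟨δ₀, hδ₀, hP⟩ := prp d k
  refine ⟨δ₀, hδ₀, fun δ hδ hδδ => ?_⟩
  obtain ⟨T₀, -, hT₀⟩ := hP δ hδ hδδ
  refine ⟨T₀, ?_⟩
  intro T hT K _ _ hd t ht f g h hf hg hh hex a b c ha hb hc ha0 hb0 hc0 p hp hp3 heq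
  have hodd : Odd p := hp.odd_of_ne_two (by omega)
  have hnegK : ∀ (x : 𝓞 K) (σ : K →+* ℂ), ‖σ ((-x : 𝓞 K) : K)‖ = ‖σ (x : K)‖ := by
    intro x σ
    have e : ((-x : 𝓞 K) : K) = -(x : K) := by push_cast; rfl
    rw [e, map_neg, norm_neg]
  have hD : FData T (T ^ δ) k t ![f, g, -h] := by
    refine ⟨fun σ => (ht σ).1, ?_, ?_, ?_, ?_, ?_⟩
    · intro i
      fin_cases i
      · exact hf.deg
      · exact hg.deg
      · show (-h).natDegree ≤ k
        rw [natDegree_neg]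
        exact hh.deg
    · intro i j σ
      fin_cases i
      · exact hf.coeff j σ
      · exact hg.coeff j σ
      · show ‖σ (((-h).coeff j : 𝓞 K) : K)‖ ≤ T ^ δ
        rw [coeff_neg, hnegK]
        exact hh.coeff j σ
    · intro i σ
      fin_cases i
      · exact hf.last σ
      · exact hg.last σ
      · show ‖σ (((-h).coeff 0 : 𝓞 K) : K)‖ ≤ 1
        rw [coeff_neg, hnegK]
        exact hh.last σ
    · rcases hex with h1 | h1 | h1
      · exact ⟨0, h1⟩
      · exact ⟨1, h1⟩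
      · refine ⟨2, ?_⟩
        show (-h).coeff 0 ≠ 0
        rw [coeff_neg]
        exact neg_ne_zero.mpr h1
    · intro i
      fin_cases i
      · show f.eval t ≠ 0
        rw [← ha]; exact ha0
      · show g.eval t ≠ 0
        rw [← hb]; exact hb0
      · show (-h).eval t ≠ 0
        rw [eval_neg, ← hc]; exact neg_ne_zero.mpr hc0
  have heq2 : ((![f, g, -h] : Fin 3 → (𝓞 K)[X]) 0).eval t ^ p +
      ((![f, g, -h] : Fin 3 → (𝓞 K)[X]) 1).eval t ^ p =
      ((![f, g, -h] : Fin 3 → (𝓞 K)[X]) 2).eval t ^ p := by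
    show f.eval t ^ p + g.eval t ^ p = (-h).eval t ^ p
    rw [eval_neg, hodd.neg_pow, ← ha, ← hb, ← hc]
    linear_combination heq
  have h1 := hT₀ T hT K hd t _ hD (fun σ => (ht σ).2) p hp3 heq2
  obtain ⟨u, v, e1, e2, ⟨m, hm, hum, hvm⟩, e3, e4⟩ := conclusion hD h1 heq2
  have f1 : (a : K) = u * ((-c : 𝓞 K) : K) := by
    have : ((f.eval t : 𝓞 K) : K) = u * (((-h).eval t : 𝓞 K) : K) := e1
    rw [eval_neg, ← ha, ← hc] at this
    exact this
  have f2 : (b : K) = v * ((-c : 𝓞 K) : K) := by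
    have : ((g.eval t : 𝓞 K) : K) = v * (((-h).eval t : 𝓞 K) : K) := e2
    rw [eval_neg, ← hb, ← hc] at this
    exact this
  have ec : ((-c : 𝓞 K) : K) = -(c : K) := by push_cast; rfl
  rw [ec] at f1 f2
  refine ⟨-u, -v, by rw [f1]; ring, by rw [f2]; ring, ⟨2 * m, by omega, ?_, ?_⟩, ?_, ?_⟩
  · rw [pow_mul, neg_sq, ← pow_mul, mul_comm 2, pow_mul, hum, one_pow]
  · rw [pow_mul, neg_sq, ← pow_mul, mul_comm 2, pow_mul, hvm, one_pow]
  · rw [hodd.neg_pow]
    obtain ⟨z, hz⟩ : ∃ z, z = u ^ p := ⟨_, rfl⟩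
    rw [← hz] at e3 ⊢
    -- the square of a primitive sixth root is a primitive cube root, minus it is its fourth power
    have h3 : z ^ 3 = -1 := by
      have h5 : (z ^ 3) ^ 2 = 1 := by rw [← pow_mul]; exact e3.pow_eq_one
      have h6 : z ^ 3 ≠ 1 := e3.pow_ne_one_of_pos_of_lt (by norm_num) (by norm_num)
      have h7 : (z ^ 3 - 1) * (z ^ 3 + 1) = 0 := by linear_combination h5
      rcases mul_eq_zero.mp h7 with h8 | h8
      · exact absurd (sub_eq_zero.mp h8) h6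
      · exact eq_neg_of_add_eq_zero_left h8
    have h4 : -z = z ^ 4 := by
      rw [show (4 : ℕ) = 3 + 1 from rfl, pow_succ, h3]
      ring
    rw [h4]
    have h5 : IsPrimitiveRoot (z ^ 2) 3 := e3.pow (by norm_num) (by norm_num)
    have h6 : z ^ 4 = (z ^ 2) ^ 2 := by ring
    rw [h6]
    exact h5.pow_of_coprime 2 (by norm_num)
  · rw [hodd.neg_pow, hodd.neg_pow, e4]
    obtain ⟨z, hz⟩ : ∃ z, z = u ^ p := ⟨_, rfl⟩
    rw [← hz] at e3 ⊢
    have h3 : z ^ 3 = -1 := by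
      have h5 : (z ^ 3) ^ 2 = 1 := by rw [← pow_mul]; exact e3.pow_eq_one
      have h6 : z ^ 3 ≠ 1 := e3.pow_ne_one_of_pos_of_lt (by norm_num) (by norm_num)
      have h7 : (z ^ 3 - 1) * (z ^ 3 + 1) = 0 := by linear_combination h5
      rcases mul_eq_zero.mp h7 with h8 | h8
      · exact absurd (sub_eq_zero.mp h8) h6
      · exact eq_neg_of_add_eq_zero_left h8
    linear_combination (-z ^ 2) * h3

end Pool.Agent.Results.MP_ef6a16_nt.SmallDigitPoints
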